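import Pool.Agent.PRT.StmtsA

set_option autoImplicit false

/-!
Row MPV of squad PRT (MP_b2962a_an): a lift preserves the area.
-/

namespace Pool.Agent.PRT.H8

open Pool.Agent.PRT Set MeasureTheory
open scoped ContDiff

theorem one_step {g : E → E} {v : E} {C : ℝ} (h : Lf g v C) {A : Set E} (hA : MeasurableSet A) :
    MeasurableSet (g '' A) ∧ volume (g '' A) = volume A := by
  obtain ⟨G, -, hG1, -⟩ := h.inv
  have hinj : Function.Injective g := by
    intro a b hab
    rw [← hG1 a, ← hG1 b, hab]
  have hd : Differentiable ℝ g := h.sm.differentiable (by simp)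
  refine ⟨hA.image_of_continuousOn_injOn hd.continuous.continuousOn hinj.injOn, ?_⟩
  have h1 := lintegral_abs_det_fderiv_eq_addHaar_image (volume : Measure E) hA
    (fun x _ => (hd x).hasFDerivAt.hasFDerivWithinAt) hinj.injOn
  rw [← h1]
  have h2 : ∀ x : E, ENNReal.ofReal |(fderiv ℝ g x).det| = 1 := by
    intro x
    rw [h.det x]
    simp
  simp only [h2]
  simp

theorem mpv : MpvStmt := by
  intro g v C h m
  induction m with
  | zero =>
    intro A _
    simp
  | succ m ih =>
    intro A hA
    rw [Function.iterate_succ, image_comp]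
    obtain ⟨h1, h2⟩ := one_step h hA
    rw [ih _ h1, h2]

end Pool.Agent.PRT.H8
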